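import Mathlib

/-!
# Krull: a minimal prime over an extended prime has height at most the height below
-/

open Order

namespace Pool.Agent.H34.LS

/-- The interval `[a, b]` of the prime spectrum has dimension the height of `b / a` in `R / a`. -/
theorem krullDim_Icc_eq {R : Type*} [CommRing R] (a b : PrimeSpectrum R)
    (P : PrimeSpectrum (R ⧸ a.asIdeal))
    (hP : P.comap (Ideal.Quotient.mk a.asIdeal) = b) :
    krullDim (Set.Icc a b) = (Order.height P : ℕ∞) := by
  rw [height_eq_krullDim_Iic]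
  let e := a.asIdeal.primeSpectrumQuotientOrderIsoZeroLocus
  have he : ∀ Q, ((e Q : _) : PrimeSpectrum R) = Q.comap (Ideal.Quotient.mk a.asIdeal) := by
    intro Q; rfl
  have hz : ∀ c : PrimeSpectrum R, c ∈ PrimeSpectrum.zeroLocus (a.asIdeal : Set R) ↔ a ≤ c := by
    intro c; rfl
  refine krullDim_eq_of_orderIso ?_
  refine
    { toFun := fun c => ⟨e.symm ⟨c.1, (hz _).2 c.2.1⟩, ?_⟩
      invFun := fun Q => ⟨(e Q.1 : _), ?_⟩
      left_inv := ?_
      right_inv := ?_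
      map_rel_iff' := ?_ }
  · show e.symm _ ≤ P
    rw [← e.symm_apply_apply P, e.symm.le_iff_le]
    show c.1 ≤ ((e P : _) : PrimeSpectrum R)
    rw [he, hP]
    exact c.2.2
  · refine ⟨(hz _).1 (e Q.1).2, ?_⟩
    have : Q.1 ≤ P := Q.2
    have h2 : e Q.1 ≤ e P := e.monotone this
    have h3 : ((e Q.1 : _) : PrimeSpectrum R) ≤ ((e P : _) : PrimeSpectrum R) := h2
    rw [he P, hP] at h3
    exact h3
  · intro c
    ext1
    simp
  · intro Q
    ext1
    simp
  · intro c d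
    simp only [Equiv.coe_fn_mk, Subtype.mk_le_mk, OrderIso.le_iff_le]
    rfl

/-- A prime above `a` comes from the quotient by `a`. -/
theorem exists_quotient_prime {R : Type*} [CommRing R] (a b : PrimeSpectrum R) (hab : a ≤ b) :
    ∃ P : PrimeSpectrum (R ⧸ a.asIdeal), P.comap (Ideal.Quotient.mk a.asIdeal) = b := by
  let e := a.asIdeal.primeSpectrumQuotientOrderIsoZeroLocus
  refine ⟨e.symm ⟨b, hab⟩, ?_⟩
  have : ((e (e.symm ⟨b, hab⟩) : _) : PrimeSpectrum R) = b := by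
    rw [e.apply_symm_apply]
  exact this

/-- The image of a minimal prime over `I` in `S / I` has height zero. -/
theorem height_map_mk_eq_zero {S : Type*} [CommRing S] (I Q : Ideal S)
    (hQ : Q ∈ I.minimalPrimes) : (Q.map (Ideal.Quotient.mk I)).height = 0 := by
  have hQp : Q.IsPrime := hQ.1.1
  have hker : RingHom.ker (Ideal.Quotient.mk I) ≤ Q := by
    rw [Ideal.mk_ker]; exact hQ.1.2
  have hprime : (Q.map (Ideal.Quotient.mk I)).IsPrime :=
    Ideal.map_isPrime_of_surjective Ideal.Quotient.mk_surjective hker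
  have hcm : (Q.map (Ideal.Quotient.mk I)).comap (Ideal.Quotient.mk I) = Q :=
    Ideal.comap_map_mk hQ.1.2
  rw [Ideal.height_eq_zero_iff]
  refine ⟨⟨hprime, bot_le⟩, ?_⟩
  rintro P' ⟨hP', -⟩ hle
  have h1 : P'.comap (Ideal.Quotient.mk I) ≤ Q := by
    rw [← hcm]; exact Ideal.comap_mono hle
  have h2 : I ≤ P'.comap (Ideal.Quotient.mk I) := by
    intro x hx
    rw [Ideal.mem_comap, Ideal.Quotient.eq_zero_iff_mem.2 hx]
    exact P'.zero_mem
  have h3 : Q ≤ P'.comap (Ideal.Quotient.mk I) := hQ.2 ⟨hP'.comap _, h2⟩ h1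
  exact Ideal.map_le_iff_le_comap.2 h3

/-- Krull's height theorem in the form used for the fibres of a dominant map: over `p_v ⊇ p_w`
and `q_y ⊇ q_w` there is a prime `q_w ≤ q_v ≤ q_y` over `p_v` with `codim (q_v, q_w) ≤
codim (p_v, p_w)`. -/
theorem exists_prime_over {A B : Type*} [CommRing A] [CommRing B] [IsNoetherianRing A]
    [IsNoetherianRing B] (φ : A →+* B) (pw pv : PrimeSpectrum A) (qw qy : PrimeSpectrum B)
    (hpp : pw ≤ pv) (hqq : qw ≤ qy) (h1 : qw.comap φ = pw) (h2 : qy.comap φ = pv) :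
    ∃ qv : PrimeSpectrum B, qw ≤ qv ∧ qv ≤ qy ∧ qv.comap φ = pv ∧
      krullDim (Set.Icc qw qv) ≤ krullDim (Set.Icc pw pv) := by
  obtain ⟨P, hP⟩ := exists_quotient_prime pw pv hpp
  obtain ⟨Qy, hQy⟩ := exists_quotient_prime qw qy hqq
  have hle : pw.asIdeal ≤ qw.asIdeal.comap φ := by
    rw [← h1]; exact le_rfl
  let ψ : A ⧸ pw.asIdeal →+* B ⧸ qw.asIdeal := Ideal.quotientMap qw.asIdeal φ hle
  have hψ : ψ.comp (Ideal.Quotient.mk pw.asIdeal) = (Ideal.Quotient.mk qw.asIdeal).comp φ := by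
    ext x; simp [ψ]
  let _ : Algebra (A ⧸ pw.asIdeal) (B ⧸ qw.asIdeal) := ψ.toAlgebra
  have hQyP : Qy.comap ψ = P := by
    apply PrimeSpectrum.comap_injective_of_surjective (Ideal.Quotient.mk pw.asIdeal)
      Ideal.Quotient.mk_surjective
    rw [hP, ← PrimeSpectrum.comap_comp_apply, hψ, PrimeSpectrum.comap_comp_apply, hQy, h2]
  have hmap : P.asIdeal.map (algebraMap (A ⧸ pw.asIdeal) (B ⧸ qw.asIdeal)) ≤ Qy.asIdeal := by
    rw [Ideal.map_le_iff_le_comap]
    have : Qy.asIdeal.comap ψ = P.asIdeal := by rw [← hQyP]; rfl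
    exact this.ge
  obtain ⟨Q, hQmin, hQle⟩ := Ideal.exists_minimalPrimes_le hmap
  have hQprime : Q.IsPrime := hQmin.1.1
  have hPQ : P.asIdeal ≤ Q.comap ψ := Ideal.map_le_iff_le_comap.1 hQmin.1.2
  have hQover : Q.comap ψ = P.asIdeal := by
    apply le_antisymm _ hPQ
    have : Qy.asIdeal.comap ψ = P.asIdeal := by rw [← hQyP]; rfl
    rw [← this]
    exact Ideal.comap_mono hQle
  have : Q.LiesOver P.asIdeal := ⟨hQover.symm⟩
  have : P.asIdeal.IsPrime := P.2
  have hht := Ideal.height_le_height_add_of_liesOver (R := A ⧸ pw.asIdeal)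
    (S := B ⧸ qw.asIdeal) P.asIdeal Q
  have hzero : (Q.map (Ideal.Quotient.mk
      (P.asIdeal.map (algebraMap (A ⧸ pw.asIdeal) (B ⧸ qw.asIdeal))))).height = 0 :=
    height_map_mk_eq_zero _ _ hQmin
  rw [hzero, add_zero] at hht
  let Q' : PrimeSpectrum (B ⧸ qw.asIdeal) := ⟨Q, hQprime⟩
  let qv : PrimeSpectrum B := Q'.comap (Ideal.Quotient.mk qw.asIdeal)
  refine ⟨qv, ?_, ?_, ?_, ?_⟩
  · show qw.asIdeal ≤ Ideal.comap _ Q
    intro x hx
    rw [Ideal.mem_comap, Ideal.Quotient.eq_zero_iff_mem.2 hx]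
    exact Q.zero_mem
  · rw [← hQy]
    show Ideal.comap _ Q ≤ Ideal.comap _ Qy.asIdeal
    exact Ideal.comap_mono hQle
  · rw [← hP]
    show (Q'.comap (Ideal.Quotient.mk qw.asIdeal)).comap φ = _
    rw [← PrimeSpectrum.comap_comp_apply, ← hψ, PrimeSpectrum.comap_comp_apply]
    congr 1
    ext1
    exact hQover
  · rw [krullDim_Icc_eq qw qv Q' rfl, krullDim_Icc_eq pw pv P hP,
      ← PrimeSpectrum.height_eq_orderHeight, ← PrimeSpectrum.height_eq_orderHeight]
    exact_mod_cast hht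

end Pool.Agent.H34.LS
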