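import Pool.Agent.H34.LS.Defs

/-!
# Checks of the definitions (not used by the hand-ins)
-/

open AlgebraicGeometry CategoryTheory Order

namespace Pool.Agent.H34.LS

variable {k K : Type} [Field k] [Field K] [Algebra k K]

theorem isDominant_gen (V : ValuationSubring K) :
    IsDominant (Spec.map (CommRingCat.ofHom (algebraMap V K))) := by
  constructor
  have hinj : Function.Injective (algebraMap V K) := Subtype.val_injective
  have : DenseRange (PrimeSpectrum.comap (algebraMap V K)) := by
    rw [PrimeSpectrum.denseRange_comap_iff_ker_le_nilRadical,
      (RingHom.injective_iff_ker_eq_bot _).1 hinj]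
    exact bot_le
  exact this

/-- The centre of a valuation ring on a separated model is unique. -/
theorem centre_unique (X : Model k K) {V : ValuationSubring K} {x y : X.X}
    (hx : IsCentre X V x) (hy : IsCentre X V y) : x = y := by
  obtain ⟨c, hc, rfl⟩ := hx
  obtain ⟨d, hd, rfl⟩ := hy
  have := isDominant_gen V
  have hs : X.X.IsSeparated := by
    have h1 : IsSeparated X.str := inferInstance
    have h2 : (Spec (.of k)).IsSeparated := inferInstance
    rw [Scheme.isSeparated_iff] at h2 ⊢
    have h3 : Limits.terminal.from X.X = X.str ≫ Limits.terminal.from _ :=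
      Limits.terminal.hom_ext _ _
    rw [h3]
    infer_instance
  have : c = d := ext_of_isDominant (Spec.map (CommRingCat.ofHom (algebraMap V K)))
    (hc.trans hd.symm)
  rw [this]

end Pool.Agent.H34.LS
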