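import Mathlib

/-!
# Varieties with a fixed function field, divisorial valuations, generalized pairs and
minimal log discrepancies

`k` is the ground field, `K / k` a function field.  A variety with function field `K` is an
integral separated scheme of finite type over `k` together with an identification of its
generic point with `Spec K`.  Prime divisors over such a variety are the divisorial
valuation rings of `K / k` which have a centre on it.
-/

open AlgebraicGeometry CategoryTheory Order

namespace Pool.Agent.H34.LS

/-- A normal variety over `k` with function field `K`: a normal integral separated scheme of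
finite type over `k`, with the inclusion `gen : Spec K ⟶ X` of its generic point. -/
structure Model (k K : Type) [Field k] [Field K] [Algebra k K] where
  X : Scheme.{0}
  str : X ⟶ Spec (.of k)
  gen : Spec (.of K) ⟶ X
  integral : IsIntegral X
  finiteType : LocallyOfFiniteType str
  quasiCompact : QuasiCompact str
  separated : IsSeparated str
  /-- all local rings are integrally closed -/
  normal : ∀ x : X, IsIntegrallyClosed (X.presheaf.stalk x)
  /-- `gen` identifies `K` with the function field of `X` ... -/
  gen_spec : ∃ e : X.functionField ≅ .of K,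
    gen = Spec.map e.hom ≫ X.fromSpecStalk (genericPoint X)
  /-- ... as an extension of `k`. -/
  gen_str : gen ≫ str = Spec.map (CommRingCat.ofHom (algebraMap k K))

attribute [instance] Model.integral Model.finiteType Model.quasiCompact Model.separated

variable {k K : Type} [Field k] [Field K] [Algebra k K]

/-- `x` is the centre on `X` of the valuation ring `V` of `K`: the inclusion of the generic point
extends to a morphism `Spec V ⟶ X` which maps the closed point to `x`. -/
def IsCentre (X : Model k K) (V : ValuationSubring K) (x : X.X) : Prop :=
  ∃ c : Spec (.of V) ⟶ X.X,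
    Spec.map (CommRingCat.ofHom (algebraMap V K)) ≫ c = X.gen ∧
      c (IsLocalRing.closedPoint V) = x

/-- `V` is the valuation ring of a prime divisor over a variety with function field `K`:
a discrete valuation ring of `K` whose residue field has transcendence degree
`trdeg (K / k) - 1` over `k` (there are that many elements of `V` whose residues are
algebraically independent over `k`). -/
def IsDivisorial (k : Type) {K : Type} [Field k] [Field K] [Algebra k K]
    (V : ValuationSubring K) : Prop :=
  IsDiscreteValuationRing V ∧ ∃ m : ℕ, Algebra.trdeg k K = m + 1 ∧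
    ∃ y : Fin m → K, ∀ p : MvPolynomial (Fin m) k, p ≠ 0 →
      V.valuation (MvPolynomial.aeval y p) = 1

/-- `t` generates the maximal ideal of `V`. -/
def IsUniformizer (V : ValuationSubring K) (t : K) : Prop :=
  t ≠ 0 ∧ ∀ x : K, V.valuation x < 1 ↔ x / t ∈ V

/-- The order of vanishing along `V` of a rational function `f ≠ 0`: the largest `j` with
`f ∈ t ^ j V`. -/
noncomputable def ordFun (V : ValuationSubring K) (f : K) : ℤ :=
  sSup {j : ℤ | ∃ t : K, IsUniformizer V t ∧ t ^ (-j) * f ∈ V}

/-- The determinant of `(D j (y i))`, for derivations `D 1, ..., D N` of `K / k` and functions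
`y 1, ..., y N`.  If `ω` is the rational `N`-form with `ω (D 1, ..., D N) = 1`, then
`dy 1 ∧ ... ∧ dy N = jac D y • ω`. -/
noncomputable def jac {N : ℕ} (D : Fin N → Derivation k K K) (y : Fin N → K) : K :=
  Matrix.det fun i j => D j (y i)

/-- The order of vanishing along `V` of the rational `N`-form `ω` with `ω (D 1, ..., D N) = 1`.
The `N`-forms regular along `V` are the combinations, with coefficients in `V`, of the forms
`dy 1 ∧ ... ∧ dy N = jac D y • ω` with all `y i ∈ V`, so the order of `ω` is the largest of the
numbers `- ord (jac D y)`. -/
noncomputable def ordForm {N : ℕ} (V : ValuationSubring K) (D : Fin N → Derivation k K K) : ℤ :=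
  sSup {j : ℤ | ∃ y : Fin N → K, (∀ i, y i ∈ V) ∧ jac D y ≠ 0 ∧ j = - ordFun V (jac D y)}

/-- The value at `V` of the `ℝ`-divisor `∑ r • div f` given by a list of pairs `(r, f)`. -/
noncomputable def ordList (V : ValuationSubring K) (l : List (ℝ × K)) : ℝ :=
  (l.map fun p => p.1 * (ordFun V p.2 : ℝ)).sum

/-- A generalized pair `(X, Δ + M)` with `N = dim X`.  `M` is the nef part, given by its value
`M V` at every divisor `V` over `X` (the multiplicity along `V` of `M'` on a model on which `V` is
a divisor); nothing is required of it here, so that all b-divisors are allowed.  `D` is a basis of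
the derivations of `K / k`, `ω` the rational `N`-form with `ω (D 1, ..., D N) = 1`, so `div ω` is a
canonical divisor, and `eqn x` is a local equation at `x` of the `ℝ`-Cartier divisor
`K_X + Δ + M`. -/
structure GPair (N : ℕ) (X : Model k K) where
  dim : Algebra.trdeg k K = N
  D : Fin N → Derivation k K K
  D_basis : ∃ y : Fin N → K, jac D y ≠ 0
  M : ValuationSubring K → ℝ
  /-- the coefficients of `Δ` at the points of codimension one -/
  Δ : X.X → ℝ
  Δ_nonneg : ∀ z, 0 ≤ Δ z
  Δ_finite : (Function.support Δ).Finite
  Δ_codim : ∀ z, Δ z ≠ 0 → coheight z = 1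
  eqn : X.X → List (ℝ × K)
  eqn_ne : ∀ x, ∀ p ∈ eqn x, p.2 ≠ 0
  /-- `K_X + Δ + M = ∑ r • div f` near `x`, `(r, f)` in the list `eqn x`. -/
  cartier : ∀ x, ∃ U : X.X.Opens, x ∈ U ∧ ∀ z ∈ U, coheight z = 1 →
    ∀ V : ValuationSubring K, IsDivisorial k V → IsCentre X V z →
      ordList V (eqn x) = ordForm V D + Δ z + M V

variable {N : ℕ} {X : Model k K}

/-- The log discrepancy of `(X, Δ + M)` at the divisor `V` with centre `x`. -/
noncomputable def ld (P : GPair N X) (x : X.X) (V : ValuationSubring K) : ℝ :=
  1 + ordForm V P.D + P.M V - ordList V (P.eqn x)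

/-- The minimal log discrepancy at the point `x` (closed or not): the infimum of the log
discrepancies of the divisors over `X` with centre `x`. -/
noncomputable def mld (P : GPair N X) (x : X.X) : EReal :=
  ⨅ V : ValuationSubring K, ⨅ _ : IsDivisorial k V, ⨅ _ : IsCentre X V x, (ld P x V : EReal)

/-- The codimension of the closure of `v` in the closure of `w`, for `v` in the closure of `w`
(`v ≤ w` in Mathlib's order on a scheme): the supremum of the lengths of the chains of
irreducible closed sets between them. -/
noncomputable def codim {S : Scheme.{0}} (v w : S) : WithBot ℕ∞ := krullDim (Set.Icc v w)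

/-- The inequality of lower semicontinuity at `v ≤ w`:
`mld_v ≤ mld_w + codim (v, w) = mld_w + dim w - dim v`. -/
def LSCAt (P : GPair N X) (v w : X.X) : Prop :=
  ∀ c : ℕ, codim v w ≤ c → mld P v ≤ mld P w + c

/-- Lower semicontinuity of minimal log discrepancies for `(X, Δ + M)`, in the form with all
scheme-theoretic points. -/
def LSC (P : GPair N X) : Prop := ∀ v w : X.X, v ≤ w → LSCAt P v w

/-- `Q` on `Y` is the crepant pullback of `P` along `g : Y ⟶ X`: every divisor over `Y` has the
same log discrepancy with respect to `Q` and with respect to `P`. -/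
def Crepant {X Y : Model k K} (g : Y.X ⟶ X.X) (Q : GPair N Y) (P : GPair N X) : Prop :=
  ∀ (V : ValuationSubring K) (y : Y.X), IsDivisorial k V → IsCentre Y V y →
    ld Q y V = ld P (g y) V

/-- A crepant model of `P` over a neighbourhood of the point `v` of `X`: an open set `U` of `X`
which contains `v`, a proper birational `f : Y ⟶ U` with `Y` normal, and a generalized pair `Q`
of the class `Cl` on `Y` (so its boundary is effective) with the same log discrepancies as `P`. -/
structure CrepantModel (Cl : ∀ X : Model k K, GPair N X → Prop) {X : Model k K} (P : GPair N X)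
    (v : X.X) where
  U : Model k K
  Y : Model k K
  i : U.X ⟶ X.X
  f : Y.X ⟶ U.X
  Q : GPair N Y
  open_i : IsOpenImmersion i
  proper : IsProper f
  gen_i : U.gen ≫ i = X.gen
  gen_f : Y.gen ≫ f = U.gen
  mem : v ∈ Set.range i
  cls : Cl Y Q
  crepant : Crepant (f ≫ i) Q P

/-- The class of all generalized pairs. -/
def AllPairs : ∀ X : Model k K, GPair N X → Prop := fun _ _ => True

namespace CrepantModel

variable {Cl : ∀ X : Model k K, GPair N X → Prop} {P : GPair N X} {v : X.X}

/-- The image in `X` of a point of the crepant model. -/
def image (C : CrepantModel Cl P v) (y : C.Y.X) : X.X := C.i (C.f y)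

/-- The inequality of lower semicontinuity holds on the crepant model at all points `v' ≤ w'` over
`v` and `w`. -/
def LSCOver (C : CrepantModel Cl P v) (w : X.X) : Prop :=
  ∀ v' w' : C.Y.X, v' ≤ w' → C.image v' = v → C.image w' = w → LSCAt C.Q v' w'

/-- `mld_(v') ≤ mld_(w') + c` on the crepant model, for all points `v'` over `v` in the closure of
`w'` with `codim (v', w') ≤ c`. -/
def BoundBelow (C : CrepantModel Cl P v) (w' : C.Y.X) (c : ℕ) : Prop :=
  ∀ v' : C.Y.X, v' ≤ w' → C.image v' = v → codim v' w' ≤ c → mld C.Q v' ≤ mld C.Q w' + c

end CrepantModel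

end Pool.Agent.H34.LS
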