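import Pool.Agent.H34.LS.Alg

/-!
# Lifting a specialization along a closed map of locally noetherian schemes
-/

open Order AlgebraicGeometry CategoryTheory

namespace Pool.Agent.H34.LS

universe u

/-- An open immersion is an order embedding for the specialization orders. -/
theorem openImm_le_iff {U X : Scheme.{u}} (j : U ⟶ X) [IsOpenImmersion j] (a b : U) :
    j a ≤ j b ↔ a ≤ b :=
  j.isOpenEmbedding.toIsEmbedding.toIsInducing.specializes_iff

theorem mem_range_of_le {U X : Scheme.{u}} (j : U ⟶ X) [IsOpenImmersion j] (a : U) (c : X)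
    (h : j a ≤ c) : ∃ c' : U, j c' = c := by
  have h' : c ⤳ j a := h
  exact h'.mem_open j.isOpenEmbedding.isOpen_range ⟨a, rfl⟩

theorem krullDim_Icc_openImm {U X : Scheme.{u}} (j : U ⟶ X) [IsOpenImmersion j] (a b : U) :
    krullDim (Set.Icc (j a) (j b)) = krullDim (Set.Icc a b) := by
  refine (krullDim_eq_of_orderIso ?_).symm
  refine RelIso.ofSurjective
    { toFun := fun c => ⟨j c.1, (openImm_le_iff j _ _).2 c.2.1, (openImm_le_iff j _ _).2 c.2.2⟩
      inj' := ?_
      map_rel_iff' := ?_ } ?_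
  · intro c d h
    ext1
    exact j.isOpenEmbedding.injective (congrArg Subtype.val h)
  · intro c d
    exact openImm_le_iff j _ _
  · rintro ⟨c, hc1, hc2⟩
    obtain ⟨c', rfl⟩ := mem_range_of_le j a c hc1
    exact ⟨⟨c', (openImm_le_iff j _ _).1 hc1, (openImm_le_iff j _ _).1 hc2⟩, rfl⟩

theorem krullDim_Icc_Spec {R : CommRingCat.{u}} (a b : Spec R) :
    krullDim (Set.Icc a b) = krullDim (Set.Icc (α := PrimeSpectrum R) b a) := by
  rw [← krullDim_orderDual]
  refine krullDim_eq_of_orderIso ?_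
  refine
    { toFun := fun c => ⟨(OrderDual.ofDual c).1, ?_, ?_⟩
      invFun := fun c => OrderDual.toDual ⟨c.1, ?_, ?_⟩
      left_inv := fun c => rfl
      right_inv := fun c => rfl
      map_rel_iff' := ?_ }
  · exact (PrimeSpectrum.le_iff_specializes _ _).2 (OrderDual.ofDual c).2.2
  · exact (PrimeSpectrum.le_iff_specializes _ _).2 (OrderDual.ofDual c).2.1
  · exact (PrimeSpectrum.le_iff_specializes _ _).1 c.2.2
  · exact (PrimeSpectrum.le_iff_specializes _ _).1 c.2.1
  · intro c d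
    exact PrimeSpectrum.le_iff_specializes _ _

/-- Let `f : Y ⟶ X` be a closed map of locally noetherian schemes, `w'` a point of `Y` and
`v ≤ f w'`. Then some `v' ≤ w'` lies over `v` with `codim (v', w') ≤ codim (v, f w')`. -/
theorem exists_lift {X Y : Scheme.{u}} [IsLocallyNoetherian X] [IsLocallyNoetherian Y]
    (f : Y ⟶ X) (hf : IsClosedMap f) (w' : Y) (v : X) (hv : v ≤ f w') :
    ∃ v' : Y, v' ≤ w' ∧ f v' = v ∧
      krullDim (Set.Icc v' w') ≤ krullDim (Set.Icc v (f w')) := by
  have hcl : IsClosed (f '' closure {w'}) := hf _ isClosed_closure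
  have hfw : f w' ∈ f '' closure {w'} := ⟨w', subset_closure rfl, rfl⟩
  have hvm : v ∈ f '' closure {w'} := by
    have h' : f w' ⤳ v := hv
    exact h'.mem_closed hcl hfw
  obtain ⟨y, hy, rfl⟩ := hvm
  have hyw : y ≤ w' := by
    show w' ⤳ y
    exact specializes_iff_mem_closure.2 hy
  obtain ⟨R, i, hi, hmi, -⟩ := Scheme.exists_affine_mem_range_and_range_subset
    (X := X) (U := ⊤) (x := f y) trivial
  have hopen : IsOpen (Set.range i) := i.isOpenEmbedding.isOpen_range
  obtain ⟨S, j, hj, hmj, hjs⟩ := Scheme.exists_affine_mem_range_and_range_subset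
    (X := Y) (U := ⟨f ⁻¹' Set.range i, hopen.preimage f.continuous⟩) (x := y) hmi
  have hrange : Set.range (j ≫ f) ⊆ Set.range i := by
    rintro _ ⟨b, rfl⟩
    exact hjs ⟨b, rfl⟩
  let g : Spec S ⟶ Spec R := IsOpenImmersion.lift i (j ≫ f) hrange
  have hg : g ≫ i = j ≫ f := IsOpenImmersion.lift_fac _ _ _
  obtain ⟨φ, hφ⟩ : ∃ φ, Spec.map φ = g := ⟨_, Spec.map_preimage _⟩
  have hpt : ∀ b : Spec S, f (j b) = i (PrimeSpectrum.comap φ.hom b) := by
    intro b
    have : (j ≫ f) b = (g ≫ i) b := by rw [hg]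
    rw [← hφ] at this
    exact this
  obtain ⟨qy, rfl⟩ := hmj
  obtain ⟨qw, rfl⟩ := mem_range_of_le j qy w' hyw
  have hqq : @LE.le (PrimeSpectrum S) _ qw qy :=
    (PrimeSpectrum.le_iff_specializes _ _).2 ((openImm_le_iff j _ _).1 hyw)
  have hR : IsLocallyNoetherian (Spec R) := isLocallyNoetherian_of_isOpenImmersion i
  have hS : IsLocallyNoetherian (Spec S) := isLocallyNoetherian_of_isOpenImmersion j
  have hR' : IsNoetherianRing R := isLocallyNoetherian_Spec.1 hR
  have hS' : IsNoetherianRing S := isLocallyNoetherian_Spec.1 hS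
  obtain ⟨qv, h1, h2, h3, h4⟩ := exists_prime_over φ.hom (PrimeSpectrum.comap φ.hom qw)
    (PrimeSpectrum.comap φ.hom qy) qw qy (Ideal.comap_mono hqq) hqq rfl rfl
  refine ⟨j qv, ?_, ?_, ?_⟩
  · exact (openImm_le_iff j _ _).2 ((PrimeSpectrum.le_iff_specializes _ _).1 h1)
  · exact (hpt qv).trans ((congrArg i h3).trans (hpt qy).symm)
  · have e1 : krullDim (Set.Icc (j qv) (j qw)) = krullDim (Set.Icc (α := PrimeSpectrum S) qw qv) :=
      (krullDim_Icc_openImm j qv qw).trans (krullDim_Icc_Spec (R := S) qv qw)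
    have e2 : krullDim (Set.Icc (f (j qy)) (f (j qw))) =
        krullDim (Set.Icc (α := PrimeSpectrum R) (PrimeSpectrum.comap φ.hom qw)
          (PrimeSpectrum.comap φ.hom qy)) := by
      rw [hpt qy, hpt qw]
      exact (krullDim_Icc_openImm i _ _).trans (krullDim_Icc_Spec (R := R) _ _)
    exact (e1.trans_le h4).trans_eq e2.symm

end Pool.Agent.H34.LS
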