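import Pool.Agent.H34.LS.Defs
import Pool.Agent.H34.LS.Lift

/-!
# Crepant descent of lower semicontinuity
-/

open AlgebraicGeometry CategoryTheory Order

namespace Pool.Agent.H34.LS

variable {k K : Type} [Field k] [Field K] [Algebra k K] {N : ℕ} {X Y U : Model k K}

theorem centre_down {g : Y.X ⟶ X.X} (hg : Y.gen ≫ g = X.gen) {V : ValuationSubring K} {y : Y.X}
    (h : IsCentre Y V y) : IsCentre X V (g y) := by
  obtain ⟨c, hc, rfl⟩ := h
  refine ⟨c ≫ g, ?_, rfl⟩
  rw [← Category.assoc, hc, hg]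

theorem centre_up {f : Y.X ⟶ X.X} [IsProper f] (hf : Y.gen ≫ f = X.gen)
    {V : ValuationSubring K} {x : X.X} (h : IsCentre X V x) :
    ∃ y : Y.X, IsCentre Y V y ∧ f y = x := by
  obtain ⟨c, hc, hx⟩ := h
  have hex : ValuativeCriterion.Existence f := by
    have h1 : UniversallyClosed f := inferInstance
    rw [UniversallyClosed.eq_valuativeCriterion] at h1
    exact h1.1
  let S : ValuativeCommSq f :=
    { R := V
      K := K
      i₁ := Y.gen
      i₂ := c
      commSq := ⟨by rw [hf, hc]⟩ }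
  obtain ⟨⟨l⟩⟩ := hex S
  refine ⟨l.l (IsLocalRing.closedPoint V), ⟨l.l, l.fac_left, rfl⟩, ?_⟩
  rw [← hx]
  have := l.fac_right
  exact congrArg (fun t : Spec (.of V) ⟶ X.X => t (IsLocalRing.closedPoint V)) this

theorem centre_open {i : U.X ⟶ X.X} [IsOpenImmersion i] (hi : U.gen ≫ i = X.gen)
    {V : ValuationSubring K} {x : U.X} (h : IsCentre X V (i x)) : IsCentre U V x := by
  obtain ⟨c, hc, hx⟩ := h
  have hr : Set.range c ⊆ Set.range i := by
    rintro _ ⟨t, rfl⟩
    have ht : t ⤳ (IsLocalRing.closedPoint V : Spec (.of V)) :=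
      IsLocalRing.specializes_closedPoint t
    have ht' : c t ⤳ i x := hx ▸ ht.map c.continuous
    exact ht'.mem_open i.isOpenEmbedding.isOpen_range ⟨x, rfl⟩
  refine ⟨IsOpenImmersion.lift i c hr, ?_, ?_⟩
  · rw [← cancel_mono i, Category.assoc, IsOpenImmersion.lift_fac, hc, hi]
  · apply i.isOpenEmbedding.injective
    rw [← hx]
    have := IsOpenImmersion.lift_fac i c hr
    exact congrArg (fun t : Spec (.of V) ⟶ X.X => t (IsLocalRing.closedPoint V)) this

/-- `mld_x P ≤ mld_y Q` for `x` the image of `y` under a crepant map. -/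
theorem mld_le_of_map {g : Y.X ⟶ X.X} (hg : Y.gen ≫ g = X.gen) {P : GPair N X} {Q : GPair N Y}
    (hc : Crepant g Q P) (y : Y.X) : mld P (g y) ≤ mld Q y := by
  unfold mld
  refine le_iInf fun V => le_iInf fun hV => le_iInf fun hy => ?_
  refine (iInf_le _ V).trans ((iInf_le _ hV).trans ((iInf_le _ (centre_down hg hy)).trans ?_))
  rw [hc V y hV hy]

/-- Over the open set `U`, over which `Y` is proper, `mld_x P` is the infimum of the `mld_y Q`
with `y` over `x`. -/
theorem le_mld {i : U.X ⟶ X.X} [IsOpenImmersion i] (hi : U.gen ≫ i = X.gen)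
    {f : Y.X ⟶ U.X} [IsProper f] (hf : Y.gen ≫ f = U.gen) {P : GPair N X} {Q : GPair N Y}
    (hc : Crepant (f ≫ i) Q P) (x : U.X) (b : EReal)
    (hb : ∀ y : Y.X, f y = x → b ≤ mld Q y) : b ≤ mld P (i x) := by
  unfold mld
  refine le_iInf fun V => le_iInf fun hV => le_iInf fun hx => ?_
  obtain ⟨y, hy, hyx⟩ := centre_up hf (centre_open hi hx)
  refine (hb y hyx).trans ?_
  refine (iInf_le _ V).trans ((iInf_le _ hV).trans ((iInf_le _ hy).trans ?_))
  rw [hc V y hV hy]
  have : (f ≫ i) y = i x := by rw [← hyx]; rfl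
  rw [this]

theorem isLocallyNoetherian (X : Model k K) : IsLocallyNoetherian X.X := by
  have := X.finiteType
  exact LocallyOfFiniteType.isLocallyNoetherian X.str

/-- **Pointwise form.**  `Y` is proper over the open set `U` of `X`, `v ≤ w` in `X`, `v` in `U`,
and `w'` is a point of `Y` over `w`.  If the inequality of lower semicontinuity holds on `Y` at all
`v' ≤ w'` over `v` with `codim (v', w') ≤ c`, then `mld_v ≤ mld_(w') + c`. -/
theorem pointwise {i : U.X ⟶ X.X} [IsOpenImmersion i] {f : Y.X ⟶ U.X} [IsProper f]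
    (hi : U.gen ≫ i = X.gen) (hf : Y.gen ≫ f = U.gen) {P : GPair N X} {Q : GPair N Y}
    (hc : Crepant (f ≫ i) Q P) (v w : U.X) (hvw : v ≤ w) (c : ℕ) (hcod : codim (i v) (i w) ≤ c)
    (w' : Y.X) (hw : f w' = w)
    (H : ∀ v' : Y.X, v' ≤ w' → f v' = v → codim v' w' ≤ c → mld Q v' ≤ mld Q w' + c) :
    mld P (i v) ≤ mld Q w' + c := by
  have := isLocallyNoetherian U
  have := isLocallyNoetherian Y
  have hcl : IsClosedMap f := f.isClosedMap
  obtain ⟨v', h1, h2, h3⟩ := exists_lift f hcl w' v (hw ▸ hvw)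
  have h4 : codim v' w' ≤ c := by
    refine h3.trans ?_
    rw [hw]
    unfold codim at hcod
    rwa [krullDim_Icc_openImm] at hcod
  have h5 : mld P (i v) ≤ mld Q v' := by
    have := mld_le_of_map (g := f ≫ i) (by rw [← Category.assoc, hf, hi]) hc v'
    have h6 : (f ≫ i) v' = i v := by rw [← h2]; rfl
    rwa [h6] at this
  exact h5.trans (H v' h1 h2 h4)

/-- The identity as an open immersion of models. -/
theorem ereal_le_add_of_sub {a b : EReal} {c : ℕ} (h : a - c ≤ b) : a ≤ b + c := by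
  have h1 : ((c : ℝ) : EReal) ≠ ⊥ := EReal.coe_ne_bot _
  have h2 : ((c : ℝ) : EReal) ≠ ⊤ := EReal.coe_ne_top _
  have h3 : ((c : ℕ) : EReal) = ((c : ℝ) : EReal) := by norm_cast
  rw [h3] at h ⊢
  exact (EReal.sub_le_iff_le_add (Or.inl h1) (Or.inl h2)).1 h

theorem ereal_sub_le_of_le_add {a b : EReal} {c : ℕ} (h : a ≤ b + c) : a - c ≤ b := by
  have h1 : ((c : ℝ) : EReal) ≠ ⊥ := EReal.coe_ne_bot _
  have h2 : ((c : ℝ) : EReal) ≠ ⊤ := EReal.coe_ne_top _
  have h3 : ((c : ℕ) : EReal) = ((c : ℝ) : EReal) := by norm_cast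
  rw [h3] at h ⊢
  exact (EReal.sub_le_iff_le_add (Or.inl h1) (Or.inl h2)).2 h

/-- **Crepant descent**, over an open set `U` of `X`. -/
theorem descentAt {i : U.X ⟶ X.X} [IsOpenImmersion i] {f : Y.X ⟶ U.X} [IsProper f]
    (hi : U.gen ≫ i = X.gen) (hf : Y.gen ≫ f = U.gen) {P : GPair N X} {Q : GPair N Y}
    (hc : Crepant (f ≫ i) Q P) (v w : U.X) (hvw : v ≤ w)
    (H : ∀ v' w' : Y.X, v' ≤ w' → f v' = v → f w' = w → LSCAt Q v' w') :
    LSCAt P (i v) (i w) := by
  intro c hcod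
  apply ereal_le_add_of_sub
  apply le_mld hi hf hc
  intro w' hw'
  apply ereal_sub_le_of_le_add
  exact pointwise hi hf hc v w hvw c hcod w' hw'
    (fun v' h1 h2 h3 => H v' w' h1 h2 hw' c h3)

/-- **Crepant descent** for the points `v ≤ w` of `X` and a crepant model at `v`. -/
theorem lscAt_of_model {Cl : ∀ X : Model k K, GPair N X → Prop} (P : GPair N X) {v w : X.X}
    (hvw : v ≤ w) (C : CrepantModel Cl P v)
    (H : ∀ v' w' : C.Y.X, v' ≤ w' → C.i (C.f v') = v → C.i (C.f w') = w → LSCAt C.Q v' w') :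
    LSCAt P v w := by
  have := C.open_i
  have := C.proper
  obtain ⟨v0, hv0⟩ := C.mem
  obtain ⟨w0, hw0⟩ := mem_range_of_le C.i v0 w (by rw [hv0]; exact hvw)
  have h := descentAt C.gen_i C.gen_f C.crepant v0 w0
    ((openImm_le_iff C.i _ _).1 (by rw [hv0, hw0]; exact hvw))
    (fun v' w' hvw' h1 h2 => H v' w' hvw' (by rw [h1, hv0]) (by rw [h2, hw0]))
  rwa [hv0, hw0] at h

/-- **Pointwise form** of crepant descent: one point `w'` over `w` which computes `mld_w`. -/
theorem mld_le_of_model {Cl : ∀ X : Model k K, GPair N X → Prop} (P : GPair N X) {v w : X.X}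
    (hvw : v ≤ w) (C : CrepantModel Cl P v) (c : ℕ) (w' : C.Y.X) (hc : codim v w ≤ c)
    (hw' : C.i (C.f w') = w) (hm : mld C.Q w' ≤ mld P w)
    (H : ∀ v' ≤ w', C.i (C.f v') = v → codim v' w' ≤ c → mld C.Q v' ≤ mld C.Q w' + c) :
    mld P v ≤ mld P w + c := by
  have := C.open_i
  have := C.proper
  obtain ⟨v0, hv0⟩ := C.mem
  have key := pointwise C.gen_i C.gen_f C.crepant v0 (C.f w')
    ((openImm_le_iff C.i _ _).1 (by rw [hv0, hw']; exact hvw)) c (by rw [hv0, hw']; exact hc) w' rfl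
    (fun v' h1 h2 h3 => H v' h1 (by rw [h2, hv0]) h3)
  rw [hv0] at key
  refine key.trans ?_
  gcongr

end Pool.Agent.H34.LS
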