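import Pool.Agent.H34.LS.Defs

/-!
# The published facts on a class of generalized pairs

`Cl` is a class of generalized pairs with function field `K` and dimension `N`, `2 ≤ N`, for
instance all generalized pairs (the nef part `M` being the trace of a divisor which is nef over
the base on a model), or all pairs with `M = 0`.
-/

open AlgebraicGeometry CategoryTheory Order

namespace Pool.Agent.H34.LS

variable {k K : Type} [Field k] [Field K] [Algebra k K] {N : ℕ}

section

variable (Cl : ∀ X : Model k K, GPair N X → Prop)

/-- Lower semicontinuity in codimension at most three (Ambro 1999; for generalized pairs Chen,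
Gongyo and Nakamura), at the points `v` of codimension at most three in the closure of a point `w`
of codimension one; a point of codimension at most three of an `N`-dimensional variety is treated
by cutting with general hyperplanes. -/
def LscThree : Prop :=
  ∀ (X : Model k K) (P : GPair N X), Cl X P → ∀ v w : X.X, v ≤ w → coheight w = 1 →
    codim v w ≤ 2 → LSCAt P v w

/-- `mld_v ≤ codim v` for the points of codimension one, two and three (same references). -/
def LeCodim : Prop :=
  ∀ (X : Model k K) (P : GPair N X), Cl X P → ∀ (v : X.X) (c : ℕ), 1 ≤ c → c ≤ 3 →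
    coheight v = c → mld P v ≤ c

/-- The non-lc locus is closed. -/
def NonlcClosed : Prop :=
  ∀ (X : Model k K) (P : GPair N X), Cl X P → IsClosed {x : X.X | mld P x < 0}

/-- The minimal log discrepancy is `-∞` at the points of the non-lc locus which are closed
(`2 ≤ N`) or of codimension at least two. -/
def NonlcBot : Prop :=
  ∀ (X : Model k K) (P : GPair N X), Cl X P → ∀ x : X.X, (IsClosed {x} ∨ 2 ≤ coheight x) →
    mld P x < 0 → mld P x = ⊥

/-- The infimum in the definition of the minimal log discrepancy is attained where it is not
negative (log resolution). -/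
def Attained : Prop :=
  ∀ (X : Model k K) (P : GPair N X), Cl X P → ∀ w : X.X, w ≠ ⊤ → 0 ≤ mld P w →
    ∃ V : ValuationSubring K, IsDivisorial k V ∧ IsCentre X V w ∧ (ld P w V : EReal) = mld P w

/-- The minimal log discrepancy at a general closed point of the closure of `v` is
`mld_v + dim v` (Ambro 1999); `Order.height v` is the dimension of the closure of `v`. -/
def GeneralPoint : Prop :=
  ∀ (X : Model k K) (P : GPair N X), Cl X P → ∀ v : X.X, v ≠ ⊤ → 0 ≤ mld P v →
    ∃ d : ℕ, height v = d ∧ ∃ O : Set X.X, IsOpen O ∧ v ∈ O ∧
      ∀ y ∈ O, v ⤳ y → IsClosed {y} → mld P y = mld P v + d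

/-- The minimal log discrepancy at a general closed point of `X` is `N = dim X`. -/
def GeneralTop : Prop :=
  ∀ (X : Model k K) (P : GPair N X), Cl X P → height (⊤ : X.X) = N ∧
    ∃ O : Set X.X, IsOpen O ∧ O.Nonempty ∧ ∀ y ∈ O, IsClosed {y} → mld P y = N

/-- Extraction of a divisor of log discrepancy at most one over a point `v` at which `P` is log
canonical (Birkar, Existence of log canonical flips and a special LMMP, Theorem 1.8; generalized
pairs: Birkar and Zhang; Han and Li): it becomes a divisor on a crepant model over a
neighbourhood of `v`. -/
def Extraction : Prop :=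
  ∀ (X : Model k K) (P : GPair N X), Cl X P → ∀ (v w : X.X), v ≤ w → 0 ≤ mld P v →
    ∀ V : ValuationSubring K, IsDivisorial k V → IsCentre X V w → ld P w V ≤ 1 →
      ∃ C : CrepantModel Cl P v, ∃ e : C.Y.X, IsCentre C.Y V e ∧ coheight e = 1 ∧
        C.image e = w

/-- The published facts on the class `Cl` of generalized pairs of dimension `N`, `2 ≤ N`. -/
structure Facts : Prop where
  lsc_three : LscThree Cl
  le_codim : LeCodim Cl
  nonlc_closed : NonlcClosed Cl
  nonlc_bot : NonlcBot Cl
  attained : Attained Cl
  general : GeneralPoint Cl
  general_top : GeneralTop Cl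
  extraction : Extraction Cl

end

/-- The closed points `x` at which closedness fails at level `a`: `x` is in the closure of the set
of closed points with minimal log discrepancy at most `a`, but `mld_x > a`. -/
def failing {X : Model k K} (P : GPair N X) (a : ℝ) : Set X.X :=
  {x | IsClosed {x} ∧ x ∈ closure {y : X.X | IsClosed {y} ∧ mld P y ≤ a} ∧ a < mld P x}

end Pool.Agent.H34.LS
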