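import Mathlib

/-!
# Generic points of components of closed sets in a noetherian sober space
-/

open TopologicalSpace

namespace Pool.Agent.H34.LS

/-- A point `v` of a closed set `Z` is a specialization of a point `w` of `Z` such that near `w`
the set `Z` is the closure of `w`. -/
theorem exists_component {α : Type*} [TopologicalSpace α] [NoetherianSpace α] [QuasiSober α]
    {Z : Set α} (hZ : IsClosed Z) {v : α} (hv : v ∈ Z) :
    ∃ w ∈ Z, w ⤳ v ∧ ∃ O : Set α, IsOpen O ∧ w ∈ O ∧ ∀ z ∈ O, z ∈ Z → w ⤳ z := by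
  obtain ⟨S, hSf, hSc, hSi, hSu⟩ := NoetherianSpace.exists_finite_set_isClosed_irreducible hZ
  have hv' : v ∈ ⋃₀ S := hSu ▸ hv
  obtain ⟨t, htS, hvt⟩ := hv'
  obtain ⟨m, htm, hm⟩ := hSf.exists_le_maximal htS
  have hmS : m ∈ S := hm.1
  obtain ⟨w, hw⟩ := QuasiSober.sober (hSi m hmS) (hSc m hmS)
  have hwm : ∀ y, w ⤳ y ↔ y ∈ m := isGenericPoint_iff_specializes.1 hw
  have hmZ : m ⊆ Z := by
    rw [hSu]; exact Set.subset_sUnion_of_mem hmS
  refine ⟨w, hmZ hw.mem, (hwm v).2 (htm hvt), (⋃₀ {t ∈ S | ¬ m ⊆ t})ᶜ, ?_, ?_, ?_⟩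
  · rw [isOpen_compl_iff]
    rw [Set.sUnion_eq_biUnion]
    refine Set.Finite.isClosed_biUnion (hSf.subset (Set.sep_subset _ _)) ?_
    intro t ht
    exact hSc t ht.1
  · rintro ⟨t, ⟨htS, hmt⟩, hwt⟩
    exact hmt fun y hy => (((hwm y).2 hy).mem_closed (hSc t htS) hwt)
  · intro z hzO hzZ
    rw [hSu] at hzZ
    obtain ⟨t, htS, hzt⟩ := hzZ
    have hmt : m ⊆ t := by
      by_contra hne
      exact hzO ⟨t, ⟨htS, hne⟩, hzt⟩
    have : t ⊆ m := hm.2 htS hmt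
    exact (hwm z).2 (this hzt)

/-- Same, and the component meets any set which is dense in `Z`. -/
theorem exists_component_closure {α : Type*} [TopologicalSpace α] [NoetherianSpace α]
    [QuasiSober α] {S : Set α} {v : α} (hv : v ∈ closure S) :
    ∃ w ∈ closure S, w ⤳ v ∧ ∀ O : Set α, IsOpen O → w ∈ O →
      ∃ s ∈ S, s ∈ O ∧ w ⤳ s := by
  obtain ⟨w, hwZ, hwv, O₁, hO₁, hwO₁, h⟩ := exists_component isClosed_closure hv
  refine ⟨w, hwZ, hwv, fun O hO hwO => ?_⟩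
  obtain ⟨s, ⟨hsO, hsO₁⟩, hsS⟩ := mem_closure_iff.1 hwZ (O ∩ O₁) (hO.inter hO₁) ⟨hwO, hwO₁⟩
  exact ⟨s, hsS, hsO, h s hsO₁ (subset_closure hsS)⟩

end Pool.Agent.H34.LS
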