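import Pool.Agent.H34.LS.Facts
import Pool.Agent.H34.LS.Descent
import Pool.Agent.H34.LS.Top

/-!
# Lower semicontinuity at low levels, in every dimension
-/

open AlgebraicGeometry CategoryTheory Order

namespace Pool.Agent.H34.LS

section order

variable {α : Type*} [Preorder α]

theorem height_add_length_le {v w : α} (l : LTSeries (Set.Icc v w)) :
    height v + (l.length : ℕ∞) ≤ height w := by
  have key : ∀ n : ℕ, ∀ hn : n < l.length + 1,
      height v + (n : ℕ∞) ≤ height ((l ⟨n, hn⟩ : Set.Icc v w) : α) := by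
    intro n
    induction n with
    | zero =>
      intro hn
      simpa using height_mono (l ⟨0, hn⟩).2.1
    | succ n ih =>
      intro hn
      have h1 := ih (by omega)
      have hlt : (l ⟨n, by omega⟩ : Set.Icc v w) < l ⟨n + 1, hn⟩ :=
        l.strictMono (by simp)
      have h2 : height ((l ⟨n, by omega⟩ : Set.Icc v w) : α) + 1 ≤
          height ((l ⟨n + 1, hn⟩ : Set.Icc v w) : α) := height_add_one_le hlt
      calc height v + ((n + 1 : ℕ) : ℕ∞) = height v + (n : ℕ∞) + 1 := by
            push_cast; rw [add_assoc]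
        _ ≤ height ((l ⟨n, by omega⟩ : Set.Icc v w) : α) + 1 := by gcongr
        _ ≤ _ := h2
  exact (key l.length (by omega)).trans (height_mono (l ⟨l.length, by omega⟩).2.2)

theorem height_add_le_of_le_krullDim {v w : α} {c : ℕ}
    (h : (c : WithBot ℕ∞) ≤ krullDim (Set.Icc v w)) : height v + (c : ℕ∞) ≤ height w := by
  obtain ⟨l, hl⟩ := le_krullDim_iff.1 h
  rw [← hl]
  exact height_add_length_le l

theorem exists_nat_of_krullDim_le {β : Type*} [Preorder β] [Nonempty β] {n : ℕ}
    (h : krullDim β ≤ n) : ∃ c : ℕ, c ≤ n ∧ krullDim β = c := by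
  induction n with
  | zero =>
    refine ⟨0, le_rfl, le_antisymm (by exact_mod_cast h) ?_⟩
    exact_mod_cast krullDim_nonneg
  | succ n ih =>
    by_cases h' : krullDim β ≤ n
    · obtain ⟨c, hc, hc'⟩ := ih h'
      exact ⟨c, by omega, hc'⟩
    · refine ⟨n + 1, le_rfl, le_antisymm h ?_⟩
      rw [le_krullDim_iff]
      by_contra hne
      apply h'
      have : krullDim β < ((n + 1 : ℕ) : WithBot ℕ∞) := by
        rw [krullDim_lt_coe_iff]
        intro l
        by_contra hl
        push Not at hl
        have : ((n + 1 : ℕ) : WithBot ℕ∞) ≤ krullDim β := by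
          refine le_trans ?_ (LTSeries.length_le_krullDim l)
          exact_mod_cast hl
        exact hne (le_krullDim_iff.1 this)
      refine iSup_le fun l => ?_
      have h3 := (krullDim_lt_coe_iff.1 this) l
      exact_mod_cast Nat.lt_succ_iff.1 h3

theorem three_le_of_not_le_two {β : Type*} [Preorder β] 
    (h : ¬ krullDim β ≤ 2) : (3 : WithBot ℕ∞) ≤ krullDim β := by
  have h3 : ((3 : ℕ) : WithBot ℕ∞) ≤ krullDim β := by
    rw [le_krullDim_iff]
    by_contra hne
    apply h
    have : krullDim β < ((3 : ℕ) : WithBot ℕ∞) := by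
      rw [krullDim_lt_coe_iff]
      intro l
      by_contra hl
      push Not at hl
      have : ((3 : ℕ) : WithBot ℕ∞) ≤ krullDim β := by
        refine le_trans ?_ (LTSeries.length_le_krullDim l)
        exact_mod_cast hl
      exact hne (le_krullDim_iff.1 this)
    refine iSup_le fun l => ?_
    have h3 := (krullDim_lt_coe_iff.1 this) l
    have h4 : l.length ≤ 2 := by omega
    exact_mod_cast h4
  exact_mod_cast h3

end order

variable {k K : Type} [Field k] [Field K] [Algebra k K] {N : ℕ}
  {Cl : ∀ X : Model k K, GPair N X → Prop}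

theorem scheme_antisymm {S : Scheme.{0}} {a b : S} (h : a ≤ b) (h' : b ≤ a) : a = b := by
  have h1 : b ⤳ a := h
  have h2 : a ⤳ b := h'
  exact (h2.antisymm h1).eq

theorem codim_nonempty {S : Scheme.{0}} {v w : S} (h : v ≤ w) : Nonempty (Set.Icc v w) :=
  ⟨⟨v, le_rfl, h⟩⟩

theorem lc_up (F : Facts Cl) {X : Model k K} {P : GPair N X} (hP : Cl X P) {v w : X.X}
    (hvw : v ≤ w) (hv : 0 ≤ mld P v) : 0 ≤ mld P w := by
  by_contra h
  have hw : w ∈ {x : X.X | mld P x < 0} := not_le.1 h
  have h' : w ⤳ v := hvw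
  exact absurd hv (not_le.2 (h'.mem_closed (F.nonlc_closed X P hP) hw))

/-- **The inequality of lower semicontinuity**, in every dimension, at the points `w` at which
the pair is not terminal, for relative dimension at most two. -/
theorem lsc_of_le_one (F : Facts Cl) (X : Model k K) (P : GPair N X) (hP : Cl X P)
    (v w : X.X) (hvw : v ≤ w) (hw : w ≠ ⊤) (h1 : mld P w ≤ 1) (h2 : codim v w ≤ 2) :
    LSCAt P v w := by
  intro c hc
  by_cases hv : 0 ≤ mld P v
  · -- `P` is lc at `v`
    have hw0 : 0 ≤ mld P w := lc_up F hP hvw hv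
    obtain ⟨V, hV, hVc, hld⟩ := F.attained X P hP w hw hw0
    have hld1 : ld P w V ≤ 1 := by
      have : ((ld P w V : ℝ) : EReal) ≤ ((1 : ℝ) : EReal) := by
        rw [hld]; exact_mod_cast h1
      exact_mod_cast this
    obtain ⟨C, e, he, hcoh, hew⟩ := F.extraction X P hP v w hvw hv V hV hVc hld1
    have := C.open_i
    have := C.proper
    have := codim_nonempty hvw
    obtain ⟨c0, hc0, hc0'⟩ := exists_nat_of_krullDim_le (β := Set.Icc v w) (n := 2)
      (by exact_mod_cast h2)
    have hc0c : c0 ≤ c := by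
      have : ((c0 : ℕ) : WithBot ℕ∞) ≤ c := by rw [← hc0']; exact hc
      exact_mod_cast this
    have hQe : mld C.Q e ≤ mld P w := by
      rw [← hld]
      unfold mld
      refine (iInf_le _ V).trans ((iInf_le _ hV).trans ((iInf_le _ he).trans ?_))
      have h3 : ld C.Q e V = ld P (C.image e) V := C.crepant V e hV he
      rw [h3, hew]
    have key := mld_le_of_model P hvw C c0 e hc0'.le hew hQe
      (fun v' hv' _ hcod => F.lsc_three C.Y C.Q C.cls v' e hv' hcoh
        (hcod.trans (by exact_mod_cast hc0)) c0 hcod)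
    calc mld P v ≤ mld P w + c0 := key
      _ ≤ mld P w + c := by gcongr
  · -- `P` is not lc at `v`
    have hneg : mld P v < 0 := not_le.1 hv
    by_cases hvw' : v = w
    · subst hvw'
      have : (0 : EReal) ≤ c := by exact_mod_cast Nat.zero_le c
      exact le_add_of_nonneg_right this
    · have hlt : v < w := lt_of_le_not_ge hvw fun h => hvw' (scheme_antisymm hvw h)
      have hwt : w < ⊤ := lt_of_le_not_ge le_top fun h => hw (scheme_antisymm le_top h)
      have hc1 : 1 ≤ coheight w := by
        have := coheight_add_one_le hwt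
        simpa using this
      have hc2 : 2 ≤ coheight v := by
        have h3 := coheight_add_one_le hlt
        calc (2 : ℕ∞) = 1 + 1 := by norm_num
          _ ≤ coheight w + 1 := by gcongr
          _ ≤ _ := h3
      rw [F.nonlc_bot X P hP v (Or.inr hc2) hneg]
      exact bot_le

theorem noetherianSpace (X : Model k K) : TopologicalSpace.NoetherianSpace X.X := by
  have h1 : IsLocallyNoetherian X.X := isLocallyNoetherian X
  have h2 : CompactSpace X.X := by
    have h3 : QuasiCompact X.str := inferInstance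
    exact (quasiCompact_iff_compactSpace X.str).1 h3
  have h3 : IsNoetherian X.X := { }
  infer_instance

theorem real_of_bounds {x : EReal} {d : ℕ} {a : ℝ} (h0 : 0 ≤ x) (h : x + d ≤ a) :
    ∃ m : ℝ, x = m ∧ 0 ≤ m ∧ m + d ≤ a := by
  induction x with
  | bot => simp at h0
  | top =>
    exfalso
    have h1 : ((⊤ : EReal) + (d : EReal)) = ⊤ := by
      have : ((d : ℕ) : EReal) = ((d : ℝ) : EReal) := by norm_cast
      rw [this]
      exact EReal.top_add_coe _
    rw [h1, top_le_iff] at h
    exact EReal.coe_ne_top _ h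
  | coe m =>
    refine ⟨m, rfl, by exact_mod_cast h0, ?_⟩
    have h2 : (((m + d : ℝ)) : EReal) ≤ a := by
      push_cast
      exact h
    exact_mod_cast h2

/-- **Dimension of the failing locus.**  In every dimension, the closed points at which closedness
of `{mld ≤ a}` fails form a set of dimension less than `a - 2`. -/
theorem failing_dim (F : Facts Cl) (X : Model k K) (P : GPair N X) (hP : Cl X P) (a : ℝ)
    (v0 : X.X) (hv0 : v0 ∈ closure (failing P a)) :
    ∃ d : ℕ, height v0 = d ∧ (d : ℝ) < a - 2 := by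
  have := noetherianSpace X
  obtain ⟨v, hvF, hvv0, hvO⟩ := exists_component_closure hv0
  have hvS : v ∈ closure {y : X.X | IsClosed {y} ∧ mld P y ≤ a} := by
    refine closure_minimal ?_ isClosed_closure hvF
    rintro y ⟨-, hy, -⟩
    exact hy
  obtain ⟨w, hwS, hwv, hwO⟩ := exists_component_closure hvS
  have hvw : v ≤ w := hwv
  obtain ⟨hNtop, Ot, hOt, hOtne, hOtN⟩ := F.general_top X P hP
  have htopmem : (⊤ : X.X) ∈ Ot := by
    obtain ⟨z, hz⟩ := hOtne
    exact (genericPoint_specializes z).mem_open hOt hz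
  have hNa : w = ⊤ → (N : ℝ) ≤ a := by
    intro hw
    obtain ⟨s, ⟨hsc, hsa⟩, hsO, -⟩ := hwO Ot hOt (by rw [hw]; exact htopmem)
    rw [hOtN s hsO hsc] at hsa
    have : (((N : ℝ)) : EReal) ≤ a := by exact_mod_cast hsa
    exact_mod_cast this
  have hvtop : v ≠ ⊤ := by
    intro hv
    have hw : w = ⊤ := scheme_antisymm le_top (hv ▸ hvw)
    obtain ⟨y, ⟨hyc, -, hya⟩, hyO, -⟩ := hvO Ot hOt (by rw [hv]; exact htopmem)
    rw [hOtN y hyO hyc] at hya
    have h1 : (a : EReal) < ((N : ℝ) : EReal) := by exact_mod_cast hya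
    have h2 : a < N := by exact_mod_cast h1
    exact absurd (hNa hw) (not_le.2 h2)
  have hvlc : 0 ≤ mld P v := by
    by_contra hneg
    obtain ⟨y, ⟨hyc, -, hya⟩, -, hvy⟩ := hvO Set.univ isOpen_univ trivial
    have hyn : mld P y < 0 := hvy.mem_closed (F.nonlc_closed X P hP) (not_le.1 hneg)
    rw [F.nonlc_bot X P hP y (Or.inl hyc) hyn] at hya
    exact not_lt_bot hya
  obtain ⟨dv, hdv, Ov, hOv, hvOv, hgenv⟩ := F.general X P hP v hvtop hvlc
  have hav : (a : EReal) < mld P v + dv := by
    obtain ⟨y, ⟨hyc, -, hya⟩, hyO, hvy⟩ := hvO Ov hOv hvOv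
    rwa [hgenv y hyO hvy hyc] at hya
  -- it suffices to bound `dv`
  suffices hmain : (dv : ℝ) < a - 2 by
    have hle : height v0 ≤ (dv : ℕ∞) := by
      rw [← hdv]; exact height_mono hvv0
    obtain ⟨d0, hd0⟩ := ENat.ne_top_iff_exists.1 (ne_top_of_le_ne_top (ENat.natCast_ne_top dv) hle)
    refine ⟨d0, hd0.symm, ?_⟩
    have : d0 ≤ dv := by
      rw [← hd0] at hle; exact_mod_cast hle
    have : (d0 : ℝ) ≤ dv := by exact_mod_cast this
    linarith
  by_cases hw : w = ⊤
  · -- `a ≥ N`
    have hNa' := hNa hw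
    have hcodim : (coheight v : WithBot ℕ∞) = krullDim (Set.Icc v (⊤ : X.X)) := by
      rw [coheight_eq_krullDim_Ici]
      have : Set.Icc v (⊤ : X.X) = Set.Ici v := by
        ext z; simp
      rw [this]
    by_cases h4 : ((4 : ℕ) : WithBot ℕ∞) ≤ krullDim (Set.Icc v (⊤ : X.X))
    · have h5 := height_add_le_of_le_krullDim h4
      rw [hdv, hNtop] at h5
      have h6 : dv + 4 ≤ N := by exact_mod_cast h5
      have h7 : (dv : ℝ) + 4 ≤ N := by exact_mod_cast h6
      linarith
    · exfalso
      have h3 : krullDim (Set.Icc v (⊤ : X.X)) ≤ ((3 : ℕ) : WithBot ℕ∞) := by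
        refine iSup_le fun l => ?_
        have h8 : ¬ 4 ≤ l.length := by
          intro h9
          apply h4
          refine le_trans ?_ (LTSeries.length_le_krullDim l)
          exact_mod_cast h9
        have h9 : l.length ≤ 3 := by omega
        exact_mod_cast h9
      have := codim_nonempty (le_top : v ≤ ⊤)
      obtain ⟨c, hc3, hc⟩ := exists_nat_of_krullDim_le h3
      have hco : coheight v = (c : ℕ∞) := by
        rw [hc] at hcodim
        exact_mod_cast hcodim
      have hc1 : 1 ≤ c := by
        have hlt : v < ⊤ := lt_of_le_not_ge le_top fun h => hvtop (scheme_antisymm le_top h)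
        have := coheight_add_one_le hlt
        rw [hco] at this
        have h10 : (1 : ℕ∞) ≤ c := le_trans (by simp) this
        exact_mod_cast h10
      have hmv : mld P v ≤ c := F.le_codim X P hP v c hc1 hc3 hco
      have h5 := height_add_le_of_le_krullDim (v := v) (w := (⊤ : X.X)) (c := c) hc.ge
      rw [hdv, hNtop] at h5
      have h6 : dv + c ≤ N := by exact_mod_cast h5
      have h7 : (a : EReal) < (c : EReal) + dv := lt_of_lt_of_le hav (by gcongr)
      have h8 : (a : EReal) < (((c : ℝ) + dv : ℝ) : EReal) := by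
        push_cast
        exact_mod_cast h7
      have h9 : a < (c : ℝ) + dv := by exact_mod_cast h8
      have h10 : (dv : ℝ) + c ≤ N := by exact_mod_cast h6
      linarith
  · have hwlc : 0 ≤ mld P w := lc_up F hP hvw hvlc
    obtain ⟨dw, hdw, Ow, hOw, hwOw, hgenw⟩ := F.general X P hP w hw hwlc
    have haw : mld P w + dw ≤ a := by
      obtain ⟨s, ⟨hsc, hsa⟩, hsO, hws⟩ := hwO Ow hOw hwOw
      rwa [hgenw s hsO hws hsc] at hsa
    obtain ⟨m, hm, hm0, hma⟩ := real_of_bounds hwlc haw
    have := codim_nonempty hvw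
    by_cases hm1 : m ≤ 1
    · by_cases h2 : codim v w ≤ 2
      · exfalso
        have hlsc := lsc_of_le_one F X P hP v w hvw hw (by rw [hm]; exact_mod_cast hm1) h2
        obtain ⟨c0, hc0, hc0'⟩ := exists_nat_of_krullDim_le (β := Set.Icc v w) (n := 2)
          (by exact_mod_cast h2)
        have h5 := height_add_le_of_le_krullDim (v := v) (w := w) (c := c0) hc0'.ge
        rw [hdv, hdw] at h5
        have h6 : (dv : ℝ) + c0 ≤ dw := by exact_mod_cast h5
        have h7 : mld P v ≤ mld P w + c0 := hlsc c0 hc0'.le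
        rw [hm] at h7
        have h8 : (a : EReal) < ((m : ℝ) : EReal) + c0 + dv := lt_of_lt_of_le hav (by gcongr)
        have h9 : (a : EReal) < ((m + c0 + dv : ℝ) : EReal) := by
          push_cast
          exact_mod_cast h8
        have h10 : a < m + c0 + dv := by exact_mod_cast h9
        linarith
      · have h3 := three_le_of_not_le_two (β := Set.Icc v w) h2
        have h5 := height_add_le_of_le_krullDim (v := v) (w := w) (c := 3) (by exact_mod_cast h3)
        rw [hdv, hdw] at h5
        have h6 : (dv : ℝ) + 3 ≤ dw := by exact_mod_cast h5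
        linarith
    · have hm1' : 1 < m := not_le.1 hm1
      have hne : v ≠ w := by
        intro h
        rw [h, hm] at hav
        have hdd : dv = dw := by
          rw [h, hdw] at hdv
          exact_mod_cast hdv.symm
        have h9 : (a : EReal) < ((m + dv : ℝ) : EReal) := by
          push_cast
          exact_mod_cast hav
        have h10 : a < m + dv := by exact_mod_cast h9
        rw [hdd] at h10
        linarith
      have hlt : v < w := lt_of_le_not_ge hvw fun h => hne (scheme_antisymm hvw h)
      have h5 := height_add_one_le hlt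
      rw [hdv, hdw] at h5
      have h6 : (dv : ℝ) + 1 ≤ dw := by exact_mod_cast h5
      linarith

/-- In every dimension `{mld ≤ a}` is closed for every `a ≤ 2`. -/
theorem closed_level (F : Facts Cl) (X : Model k K) (P : GPair N X) (hP : Cl X P) (a : EReal)
    (ha : a ≤ 2) :
    ∃ Z : Set X.X, IsClosed Z ∧ ∀ x : X.X, IsClosed {x} → (x ∈ Z ↔ mld P x ≤ a) := by
  induction a with
  | bot =>
    refine ⟨{x : X.X | mld P x < 0}, F.nonlc_closed X P hP, fun x hx => ⟨fun h => ?_, fun h => ?_⟩⟩
    · rw [F.nonlc_bot X P hP x (Or.inl hx) h]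
    · have : mld P x = ⊥ := le_bot_iff.1 h
      show mld P x < 0
      rw [this]
      exact EReal.bot_lt_zero
  | top =>
    exfalso
    rw [top_le_iff] at ha
    exact absurd ha (by exact_mod_cast EReal.coe_ne_top 2)
  | coe a =>
    have ha' : a ≤ 2 := by
      have h2 : ((a : ℝ) : EReal) ≤ ((2 : ℝ) : EReal) := ha
      exact EReal.coe_le_coe_iff.1 h2
    refine ⟨closure {y : X.X | IsClosed {y} ∧ mld P y ≤ a}, isClosed_closure,
      fun x hx => ⟨fun h => ?_, fun h => subset_closure ⟨hx, h⟩⟩⟩
    by_contra hne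
    obtain ⟨d, -, hd⟩ := failing_dim F X P hP a x
      (subset_closure ⟨hx, h, not_le.1 hne⟩)
    have : (0 : ℝ) ≤ d := Nat.cast_nonneg d
    linarith

end Pool.Agent.H34.LS
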